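import Mathlib

namespace Pool.Agent.H.MP_6afe75_al

abbrev V (p : ℕ) := ZMod p × ZMod p × ZMod p
abbrev P (p : ℕ) := Submodule (ZMod p) (V p)
def pt {p : ℕ} (v : V p) : P p := Submodule.span (ZMod p) {v}

lemma mem2 {p : ℕ} {a b x : V p} : x ∈ pt a ⊔ pt b ↔ ∃ s t : ZMod p, s • a + t • b = x := by
  simp only [pt, Submodule.mem_sup, Submodule.mem_span_singleton]
  constructor
  · rintro ⟨_, ⟨s, rfl⟩, _, ⟨t, rfl⟩, h⟩; exact ⟨s, t, h⟩
  · rintro ⟨s, t, h⟩; exact ⟨_, ⟨s, rfl⟩, _, ⟨t, rfl⟩, h⟩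

lemma mj {p : ℕ} {a b c d e : V p} (h : ∀ s t s' t' : ZMod p, s' • c + t' • d = s • a + t • b →
    ∃ k : ZMod p, k • e = s • a + t • b) : (pt a ⊔ pt b) ⊓ (pt c ⊔ pt d) ≤ pt e := fun x hx => by
  obtain ⟨s, t, rfl⟩ := mem2.1 hx.1
  obtain ⟨s', t', e⟩ := mem2.1 hx.2
  exact Submodule.mem_span_singleton.2 (h _ _ _ _ e)

lemma le2 {p : ℕ} {a b e : V p} (h : ∃ s t : ZMod p, s • a + t • b = e) : pt e ≤ pt a ⊔ pt b :=
  (Submodule.span_singleton_le_iff_mem _ _).2 (mem2.2 h)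

lemma dj {p : ℕ} {a b : V p} (h : ∀ s t : ZMod p, t • b = s • a → s • a = 0) : pt a ⊓ pt b ≤ ⊥ :=
  fun x hx => by
    obtain ⟨s, rfl⟩ := Submodule.mem_span_singleton.1 hx.1
    obtain ⟨t, e⟩ := Submodule.mem_span_singleton.1 hx.2
    exact h _ _ e

structure LRep (Λ B : Type) [Lattice Λ] where
  r : Λ → B → B → Prop
  rf : ∀ x a, r x a a
  sy : ∀ {x a b}, r x a b → r x b a
  tr : ∀ {x a b c}, r x a b → r x b c → r x a c
  mo : ∀ {x y a b}, x ≤ y → r x a b → r y a b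
  de : ∀ {x y a b}, r (x ⊔ y) a b → ∃ c, r x a c ∧ r y c b
  mt : ∀ {x y a b}, r x a b → r y a b → r (x ⊓ y) a b

lemma par {B : Type} (s : Setoid B) (Y : B → Prop) (T : B → B → Prop)
    (hY : ∀ {p q}, Y p → s p q → Y q) (tot : ∀ p, Y p → ∃ q, Y q ∧ T p q)
    (fn : ∀ {p q q'}, T p q → T p q' → s q q') (rs : ∀ {p q q'}, T p q → s q q' → T p q')
    (sy : ∀ {p q}, Y p → Y q → T p q → T q p) :
    ∃ f : Function.End {k : Quotient s // Y k.out}, f ^ 2 ^ 1 = 1 ∧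
      ∀ k, k ∈ f.fixedPoints ↔ T k.1.out k.1.out := by
  choose g g1 g2 using tot
  let f : Function.End {k : Quotient s // Y k.out} := fun k =>
    ⟨Quotient.mk s (g _ k.2), hY (g1 _ _) (s.symm (Quotient.mk_out _))⟩
  have h : ∀ k, T k.1.out (f k).1.out := fun k => rs (g2 _ k.2) (s.symm (Quotient.mk_out _))
  refine ⟨f, funext fun k => Subtype.ext (Quotient.out_equiv_out.1
    (fn (h (f k)) (sy k.2 (f k).2 (h k)))), fun k => ⟨fun e => ?_, fun e => ?_⟩⟩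
  · have := h k
    rwa [show f k = k from e] at this
  · exact Subtype.ext (Quotient.out_equiv_out.1 (fn (h k) e))

namespace LRep
variable {Λ B : Type} [Lattice Λ] (R : LRep Λ B) {x y z w u : Λ} {a b c d : B}

lemma jn (h : R.r x a b) (k : R.r y b c) : R.r (x ⊔ y) a c :=
  R.tr (R.mo le_sup_left h) (R.mo le_sup_right k)
lemma jn' (h : R.r y a b) (k : R.r x b c) : R.r (x ⊔ y) a c :=
  R.tr (R.mo le_sup_right h) (R.mo le_sup_left k)
lemma sw (h : R.r x a b) (k : R.r y b c) : ∃ d, R.r y a d ∧ R.r x d c := R.de (R.jn' h k)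
lemma me (l : x ⊓ y ≤ z) (h : R.r x a b) (k : R.r y a b) : R.r z a b := R.mo l (R.mt h k)
def st (x : Λ) : Setoid B := ⟨R.r x, R.rf x, R.sy, R.tr⟩

end LRep

lemma fano {B : Type} (R : LRep (P 2) B) {o o' : B} (h : R.r (pt (1, 0, 0)) o o')
    (hn : ¬ R.r ⊥ o o') : ∃ f : Function.End {k : Quotient (R.st ⊥) // R.r (pt (1, 0, 0)) o k.out},
      f ^ 2 ^ 1 = 1 ∧ ∀ k, k ∉ f.fixedPoints := by
  obtain ⟨r, r1, r2⟩ := R.de (R.mo (le2 (a := (0, 1, 0)) (b := (1, 1, 0)) (by decide)) h)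
  obtain ⟨s, s1, s2⟩ := R.de (R.mo (le2 (a := (0, 0, 1)) (b := (1, 0, 1)) (by decide)) h)
  have rs : R.r (pt (0, 1, 1)) r s :=
    R.me (mj (by decide)) (R.jn r2 (R.sy s2)) (R.jn (R.sy r1) s1)
  obtain ⟨f, f1, f2⟩ := par (R.st ⊥) (R.r (pt (1, 0, 0)) o) (fun p q => R.r (pt (1, 0, 0)) o q ∧
      ∃ p', R.r (pt (0, 1, 0)) p p' ∧ R.r (pt (1, 0, 0)) p' r ∧ R.r (pt (1, 1, 0)) p' q)
    (fun a b => R.tr a (R.mo bot_le b))
    (fun p hp => by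
      obtain ⟨p', a, b⟩ := R.sw (R.sy hp) r1
      obtain ⟨q, c, d⟩ := R.sw b r2
      have := R.tr h (R.sy d)
      exact ⟨q, this, this, p', a, b, c⟩)
    (fun ⟨a, p, b, c, d⟩ ⟨a', p', b', c', d'⟩ => by
      have := R.me (dj (by decide)) (R.tr (R.sy b) b') (R.tr c (R.sy c'))
      exact R.me (dj (by decide)) (R.tr (R.sy a) a') (R.tr (R.sy d) (R.tr (R.mo bot_le this) d')))
    (fun ⟨a, p, b, c, d⟩ e => ⟨R.tr a (R.mo bot_le e), p, b, c, R.tr d (R.mo bot_le e)⟩)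
    (fun {p q} hp hq ⟨_, p', b, c, d⟩ => by
      obtain ⟨q', e1, e2⟩ := R.sw (R.sy hq) r1
      obtain ⟨t, t1, t2⟩ := R.sw (R.sy hp) s1
      have pq := R.tr (R.sy hp) hq
      have k1 : R.r (pt (0, 1, 1)) p' t := R.me (mj (by decide))
        (R.tr (R.jn c rs) (R.mo le_sup_left (R.sy t2))) (R.jn (R.sy b) t1)
      have k2 : R.r (pt (1, 0, 1)) t q := R.me (mj (by decide))
        (R.jn (R.sy k1) d) (R.jn (R.sy t1) pq)
      have k3 : R.r (pt (1, 1, 1)) q' t := R.me (mj (by decide))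
        (R.jn (R.sy e1) (R.sy k2)) (R.tr (R.jn e2 rs) (R.mo le_sup_left (R.sy t2)))
      exact ⟨hp, q', e1, e2, R.me (mj (by decide))
        (R.jn k3 (R.sy t1)) (R.jn (R.sy e1) (R.sy pq))⟩)
  refine ⟨f, f1, fun k hk => hn ?_⟩
  obtain ⟨a, p', b, c, d⟩ := (f2 k).1 hk
  have e1 := R.me (dj (by decide)) b (R.sy d)
  have e2 := R.me (dj (by decide)) (R.tr a (R.tr (R.mo bot_le e1) c)) r1
  exact R.me (dj (by decide)) h (R.tr (R.mo bot_le e2) r2)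

def cc : P 3 := LinearMap.ker (LinearMap.fst (ZMod 3) _ _)

lemma cc1 : pt (1, 0, 0) ⊓ cc ≤ ⊥ := fun x hx => by
  obtain ⟨s, rfl⟩ := Submodule.mem_span_singleton.1 hx.1
  have : s = 0 := by simpa [cc] using hx.2
  simp [this]

lemma cc2 : ⊤ ≤ cc ⊔ pt (1, 0, 0) := fun x _ => Submodule.mem_sup.2
  ⟨(0, x.2), rfl, (x.1, 0), Submodule.mem_span_singleton.2 ⟨x.1, by simp⟩, by simp⟩

lemma harm {B : Type} (R : LRep (P 3) B) (o : B) :
    ∃ f : Function.End {k : Quotient (R.st cc) // R.r ⊤ o k.out},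
      f ^ 2 ^ 1 = 1 ∧ ∀ k, k ∈ f.fixedPoints ↔ k.1 = Quotient.mk _ o := by
  have un : ∀ {x x'}, R.r (pt (1, 0, 0)) x o → R.r (pt (1, 0, 0)) x' o → R.r cc x x' → R.r ⊥ x x' :=
    fun a b c => R.me cc1 (R.tr a (R.sy b)) c
  obtain ⟨f, f1, f2⟩ := par (R.st cc) (R.r ⊤ o) (fun p q => ∃ x y z, R.r cc p x ∧
      R.r (pt (1, 0, 0)) x o ∧ R.r (pt (1, 1, 0)) x y ∧ R.r (pt (0, 1, 0)) y o ∧
      R.r (pt (1, -1, 0)) y z ∧ R.r (pt (1, 0, 0)) z o ∧ R.r cc z q)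
    (fun a b => R.tr a (R.mo le_top b))
    (fun p hp => by
      obtain ⟨x, a, b⟩ := R.de (R.mo cc2 (R.sy hp))
      obtain ⟨y, c, d⟩ := R.de (R.mo (le2 (a := (1, 1, 0)) (b := (0, 1, 0)) (by decide)) b)
      obtain ⟨z, e, g⟩ := R.de (R.mo (le2 (a := (1, -1, 0)) (b := (1, 0, 0)) (by decide)) d)
      exact ⟨z, R.mo le_top (R.sy g), x, y, z, a, b, c, d, e, g, R.rf _ _⟩)
    (fun ⟨x, y, z, a, b, c, d, e, g, i⟩ ⟨x', y', z', a', b', c', d', e', g', i'⟩ => by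
      have k1 := un b b' (R.tr (R.sy a) a')
      have k2 := R.me (dj (by decide)) (R.tr (R.sy c) (R.tr (R.mo bot_le k1) c')) (R.tr d (R.sy d'))
      have k3 := R.me (dj (by decide)) (R.tr (R.sy e) (R.tr (R.mo bot_le k2) e')) (R.tr g (R.sy g'))
      exact R.tr (R.sy i) (R.tr (R.mo bot_le k3) i'))
    (fun ⟨x, y, z, a, b, c, d, e, g, i⟩ j => ⟨x, y, z, a, b, c, d, e, g, R.tr i j⟩)
    (fun _ _ ⟨x, y, z, a, b, c, d, e, g, i⟩ => by
      obtain ⟨y', c', d'⟩ := R.de (R.mo (le2 (a := (1, 1, 0)) (b := (0, 1, 0)) (by decide)) g)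
      obtain ⟨w, w1, w2⟩ := R.de (R.mo (le2 (a := (1, 0, 1)) (b := (0, 0, 1)) (by decide)) b)
      have k1 : R.r (pt (0, 1, -1)) w y := R.me (mj (by decide))
        (R.jn (R.sy w1) c) (R.jn w2 (R.sy d))
      have k2 : R.r (pt (1, 0, -1)) w z := R.me (mj (by decide))
        (R.jn k1 e) (R.jn w2 (R.sy g))
      have k3 : R.r (pt (0, 1, 1)) w y' := R.me (mj (by decide))
        (R.jn k2 c') (R.jn w2 (R.sy d'))
      exact ⟨z, y', x, R.sy i, g, c', d', R.me (mj (by decide))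
        (R.jn (R.sy k3) (R.sy w1)) (R.jn d' (R.sy b)), b, R.sy a⟩)
  refine ⟨f, f1, fun k => (f2 k).trans ⟨fun ⟨x, y, z, a, b, c, d, e, g, i⟩ => ?_, fun e => ?_⟩⟩
  · have k1 := un b g (R.sy (R.tr i a))
    have k2 := R.me (dj (by decide)) c (R.tr (R.mo bot_le k1) (R.sy e))
    have k3 := R.me (dj (by decide)) b (R.tr (R.mo bot_le k2) d)
    exact (Quotient.out_eq _).symm.trans (Quotient.sound (R.tr a (R.mo bot_le k3)))
  · have : R.r cc k.1.out o := e ▸ Quotient.mk_out (s := R.st cc) o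
    exact ⟨o, o, o, this, R.rf _ _, R.rf _ _, R.rf _ _, R.rf _ _, R.rf _ _, R.sy this⟩

lemma clash {B : Type} [Finite B] (R : LRep (P 2) B) (S : LRep (P 3) B) (h1 : R.r ⊥ = S.r cc)
    (h2 : R.r (pt (1, 0, 0)) = S.r ⊤) {o o' : B} (h : R.r (pt (1, 0, 0)) o o') : R.r ⊥ o o' := by
  classical
  by_contra hn
  have e : R.st ⊥ = S.st cc := Setoid.ext fun a b => by
    change R.r ⊥ a b ↔ S.r cc a b; rw [h1]
  have k := fano R h hn
  rw [e, h2] at k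
  obtain ⟨f, f1, f2⟩ := k
  obtain ⟨g, g1, g2⟩ := harm S o
  haveI := Fintype.ofFinite {k : Quotient (S.st cc) // S.r ⊤ o k.out}
  have a := Equiv.Perm.card_fixedPoints_modEq f1
  have b := Equiv.Perm.card_fixedPoints_modEq g1
  rw [Fintype.card_eq_zero_iff.2 ⟨fun k : f.fixedPoints => f2 k.1 k.2⟩] at a
  rw [Fintype.card_eq_one_iff.2 ⟨(⟨⟨Quotient.mk _ o, S.mo le_top
    (S.sy (Quotient.mk_out (s := S.st cc) o))⟩, (g2 _).2 rfl⟩ : g.fixedPoints),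
      fun k => Subtype.ext (Subtype.ext ((g2 _).1 k.2))⟩] at b
  exact absurd (a.symm.trans b) (by decide)

end Pool.Agent.H.MP_6afe75_al
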