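import Pool.Agent.H.MP_6afe75_al.A

namespace Pool.Agent.H.MP_6afe75_al

noncomputable def ε : (ℕ → ZMod 2) ≃ (ℕ → ZMod 3) := (Cardinal.eq.1 (by
  simpa using (Cardinal.nat_power_aleph0 (n := 3) (by norm_num)).symm)).some

abbrev X := (ℕ → ZMod 2) × (ℕ → ZMod 2 × ZMod 2) × (ℕ → ZMod 3 × ZMod 3)

def u (p : X) (n : ℕ) : V 2 := (p.1 n, p.2.1 n)
noncomputable def v (p : X) (n : ℕ) : V 3 := (ε p.1 n, p.2.2 n)

def θ (y : P 2) : Setoid X := ⟨fun p q => ∀ n, u p n - u q n ∈ y, fun _ _ => by simp,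
  fun h n => by simpa using neg_mem (h n), fun h k n => by simpa using add_mem (h n) (k n)⟩

def τ (x : P 3) : Setoid X := ⟨fun p q => p.2.1 = q.2.1 ∧ ∀ n, v p n - v q n ∈ x,
  fun _ => ⟨rfl, fun _ => by simp⟩, fun h => ⟨h.1.symm, fun n => by simpa using neg_mem (h.2 n)⟩,
  fun h k => ⟨h.1.trans k.1, fun n => by simpa using add_mem (h.2 n) (k.2 n)⟩⟩

def Cp (w s t : Setoid X) : Prop := ∀ p q, w p q ↔ ∃ r, s p r ∧ t r q

lemma θ_sup (y z : P 2) : Cp (θ (y ⊔ z)) (θ y) (θ z) := fun p q => ⟨fun h => by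
  choose a ha b hb e using fun n => Submodule.mem_sup.1 (h n)
  refine ⟨(fun n => (u p n - a n).1, fun n => (u p n - a n).2, p.2.2), fun n => ?_, fun n => ?_⟩
  · change u p n - (u p n - a n) ∈ y
    simpa using ha n
  · change u p n - a n - u q n ∈ z
    rw [sub_right_comm, ← e]; simpa using hb n,
  fun ⟨r, h, k⟩ n => by simpa using Submodule.add_mem_sup (h n) (k n)⟩

lemma τ_sup (y z : P 3) : Cp (τ (y ⊔ z)) (τ y) (τ z) := fun p q => ⟨fun h => by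
  choose a ha b hb e using fun n => Submodule.mem_sup.1 (h.2 n)
  have k : ∀ n, v (ε.symm fun n => (v p n - a n).1, p.2.1, fun n => (v p n - a n).2) n =
      v p n - a n := fun n => by simp only [v, Equiv.apply_symm_apply]
  refine ⟨(ε.symm fun n => (v p n - a n).1, p.2.1, fun n => (v p n - a n).2),
    ⟨rfl, fun n => ?_⟩, h.1, fun n => ?_⟩
  · rw [k]; simpa using ha n
  · rw [k, sub_right_comm, ← e]; simpa using hb n,
  fun ⟨r, h, k⟩ => ⟨h.1.trans k.1, fun n => by simpa using Submodule.add_mem_sup (h.2 n) (k.2 n)⟩⟩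

lemma θ_inf (y z : P 2) : θ y ⊓ θ z = θ (y ⊓ z) := Setoid.ext fun _ _ =>
  ⟨fun h n => ⟨h.1 n, h.2 n⟩, fun h => ⟨fun n => (h n).1, fun n => (h n).2⟩⟩

lemma τ_inf (y z : P 3) : τ y ⊓ τ z = τ (y ⊓ z) := Setoid.ext fun _ _ =>
  ⟨fun h => ⟨h.1.1, fun n => ⟨h.1.2 n, h.2.2 n⟩⟩,
    fun h => ⟨⟨h.1, fun n => (h.2 n).1⟩, h.1, fun n => (h.2 n).2⟩⟩

lemma g1 : θ ⊥ = τ cc := Setoid.ext fun p q => by
  change (∀ n, u p n - u q n ∈ ⊥) ↔ p.2.1 = q.2.1 ∧ ∀ n, ε p.1 n - ε q.1 n = 0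
  simp only [Submodule.mem_bot, sub_eq_zero, ← funext_iff, ε.injective.eq_iff]
  exact ⟨fun h => ⟨funext fun n => congrArg Prod.snd (congrFun h n),
    funext fun n => congrArg Prod.fst (congrFun h n)⟩, fun h => funext fun n => by simp [u, h]⟩

lemma g2 : θ (pt (1, 0, 0)) = τ ⊤ := Setoid.ext fun p q => ⟨fun h => ⟨funext fun n => by
    obtain ⟨s, e⟩ := Submodule.mem_span_singleton.1 (h n)
    have := congrArg Prod.snd e
    refine sub_eq_zero.1 (Eq.trans (b := (u p n - u q n).2) rfl (this.symm.trans ?_))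
    simp, fun _ => trivial⟩,
  fun h n => Submodule.mem_span_singleton.2 ⟨p.1 n - q.1 n, by simp [u, h.1]⟩⟩

lemma g3 : θ ⊥ ≠ θ (pt (1, 0, 0)) := fun h => by
  have : θ ⊥ (1, 0) 0 := by rw [h, g2]; exact ⟨rfl, fun _ => trivial⟩
  simpa [u] using this 0

instance : Fact (Nat.Prime 3) := ⟨by norm_num⟩

lemma up (x : P 3) : ∃ y, τ (x ⊔ cc) = θ y := by
  rcases (LinearMap.isCoatom_ker_of_surjective (f := LinearMap.fst (ZMod 3) (ZMod 3) (ZMod 3 × ZMod 3))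
    Prod.fst_surjective).le_iff.1 (le_sup_right : cc ≤ x ⊔ cc) with h | h
  · exact ⟨_, h ▸ g2.symm⟩
  · exact ⟨_, (congrArg τ h).trans g1.symm⟩

lemma dn (y : P 2) : ∃ x, θ (pt (1, 0, 0) ⊓ y) = τ x := by
  rcases (nonzero_span_atom (K := ZMod 2) ((1, 0, 0) : V 2) (by decide)).le_iff.1
    (inf_le_left : pt (1, 0, 0) ⊓ y ≤ pt (1, 0, 0)) with h | h
  · exact ⟨_, h ▸ g1⟩
  · exact ⟨_, (congrArg θ h).trans g2⟩

def C : Set (Setoid X) := Set.range θ ∪ Set.range τ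

lemma Cp.symm {w s t : Setoid X} (h : Cp w s t) : Cp w t s := fun p q =>
  ⟨fun k => ((h q p).1 (w.symm k)).imp fun _ k => ⟨t.symm k.2, s.symm k.1⟩,
    fun ⟨r, a, b⟩ => w.symm ((h q p).2 ⟨r, s.symm b, t.symm a⟩)⟩

lemma Cp.eq {w s t : Setoid X} (h : Cp w s t) : s ⊔ t = w :=
  le_antisymm (sup_le (fun p q k => (h p q).2 ⟨q, k, t.refl _⟩) fun p q k => (h p q).2 ⟨p, s.refl _, k⟩)
    fun p q k => by
      obtain ⟨r, a, b⟩ := (h p q).1 k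
      exact (s ⊔ t).trans (Setoid.le_def.1 le_sup_left a) (Setoid.le_def.1 le_sup_right b)

lemma mix (x : P 3) (y : P 2) : ∃ z, Cp (θ z) (τ x) (θ y) := by
  obtain ⟨z, e⟩ := up x
  refine ⟨z ⊔ y, fun p q => (θ_sup z y p q).trans ?_⟩
  rw [← e]
  constructor
  · rintro ⟨r, a, b⟩
    obtain ⟨r', c, d⟩ := (τ_sup x cc p r).1 a
    rw [← g1] at d
    exact ⟨r', c, (θ y).trans (fun n => bot_le (a := y) (d n)) b⟩
  · rintro ⟨r, a, b⟩
    exact ⟨r, (τ_sup x cc p r).2 ⟨r, a, Setoid.refl' _ _⟩, b⟩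

lemma mix' (x : P 3) (y : P 2) : ∃ z, τ x ⊓ θ y = τ z := by
  obtain ⟨z, e⟩ := dn y
  refine ⟨x ⊓ z, ?_⟩
  rw [← τ_inf, ← e, ← θ_inf, g2, ← inf_assoc, τ_inf, inf_top_eq]

lemma comp {s t : Setoid X} (hs : s ∈ C) (ht : t ∈ C) : ∃ w ∈ C, Cp w s t := by
  rcases hs with ⟨a, rfl⟩ | ⟨a, rfl⟩ <;> rcases ht with ⟨b, rfl⟩ | ⟨b, rfl⟩
  · exact ⟨_, Or.inl ⟨_, rfl⟩, θ_sup a b⟩
  · obtain ⟨z, h⟩ := mix b a
    exact ⟨_, Or.inl ⟨_, rfl⟩, h.symm⟩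
  · obtain ⟨z, h⟩ := mix a b
    exact ⟨_, Or.inl ⟨_, rfl⟩, h⟩
  · exact ⟨_, Or.inr ⟨_, rfl⟩, τ_sup a b⟩

def LL : Sublattice (Setoid X) where
  carrier := C
  supClosed' := fun _ hs _ ht => by
    obtain ⟨w, a, b⟩ := comp hs ht
    rwa [b.eq]
  infClosed' := by
    rintro _ (⟨a, rfl⟩ | ⟨a, rfl⟩) _ (⟨b, rfl⟩ | ⟨b, rfl⟩)
    · exact Or.inl ⟨_, (θ_inf a b).symm⟩
    · obtain ⟨z, h⟩ := mix' b a
      exact Or.inr ⟨_, h.symm.trans (inf_comm _ _)⟩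
    · obtain ⟨z, h⟩ := mix' a b
      exact Or.inr ⟨_, h.symm⟩
    · exact Or.inr ⟨_, (τ_inf a b).symm⟩

instance : Finite LL := ((Set.finite_range θ).union (Set.finite_range τ)).to_subtype

def rep {Λ L B : Type} [Lattice Λ] [Lattice L] (g : LatticeHom L (Setoid B))
    (hg : ∀ (x y : L) (a b : B), (g (x ⊔ y)).r a b ↔ ∃ c : B, (g x).r a c ∧ (g y).r c b)
    (i : Λ → L) (h1 : ∀ x y, i (x ⊔ y) = i x ⊔ i y) (h2 : ∀ x y, i (x ⊓ y) = i x ⊓ i y) :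
    LRep Λ B where
  r x := (g (i x)).r
  rf _ := Setoid.refl' _
  sy := Setoid.symm' _
  tr := Setoid.trans' _
  mo {x y a b} h k := by
    rw [← sup_eq_right.2 h, h1, map_sup]
    exact Setoid.le_def.1 le_sup_left k
  de h := (hg _ _ _ _).1 (h1 _ _ ▸ h)
  mt p q := by rw [h2, map_inf]; exact ⟨p, q⟩

theorem no_fin {B : Type} [Finite B] (g : LatticeHom LL (Setoid B)) (hi : Function.Injective g)
    (hg : ∀ (x y : LL) (a b : B), (g (x ⊔ y)).r a b ↔ ∃ c : B, (g x).r a c ∧ (g y).r c b) :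
    False := by
  have k := fun o o' => clash (o := o) (o' := o')
    (rep g hg (fun y => ⟨θ y, Or.inl ⟨_, rfl⟩⟩) (fun x y => Subtype.ext (θ_sup x y).eq.symm)
      fun x y => Subtype.ext (θ_inf x y).symm)
    (rep g hg (fun y => ⟨τ y, Or.inr ⟨_, rfl⟩⟩) (fun x y => Subtype.ext (τ_sup x y).eq.symm)
      fun x y => Subtype.ext (τ_inf x y).symm)
    (congrArg (fun z => (g z).r) (Subtype.ext g1)) (congrArg (fun z => (g z).r) (Subtype.ext g2))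
  refine g3 (congrArg Subtype.val (hi (a₁ := ⟨_, Or.inl ⟨_, rfl⟩⟩) (a₂ := ⟨_, Or.inl ⟨_, rfl⟩⟩)
    (le_antisymm (OrderHomClass.mono g ?_) fun a b h => k a b h)))
  exact fun p q h n => bot_le (a := pt (1, 0, 0)) (h n)

end Pool.Agent.H.MP_6afe75_al
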